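import Pool.Agent.GridW.Easy

/-!
# The grid-width dichotomy for `C`-Pattern PPM holds if and only if `P = NP`

If `P ≠ NP` there is a permutation class of unbounded grid-width whose pattern problem is not
NP-hard; if `P = NP` the dichotomy holds.
-/

namespace Pool.Agent.Results.MP_ab626d_lc.DichotomyIffPEqNP

open Pool.Agent.GridW

theorem result :
    ((∀ C : Set Pm, IsClass C →
      (¬ BoundedGW C → NPComplete (PPM C)) ∧ (BoundedGW C → InP (PPM C))) ↔ PEqNP) ∧
    (¬ PEqNP → ∃ C : Set Pm, IsClass C ∧ ¬ BoundedGW C ∧ ¬ NPHard (PPM C)) := by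
  refine ⟨dichotomy_iff, fun h => ?_⟩
  obtain ⟨C, h1, h2, h3⟩ := exists_class
  exact ⟨C, h1, h2, fun hh => h (h3 hh)⟩

end Pool.Agent.Results.MP_ab626d_lc.DichotomyIffPEqNP
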